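import Pool.Agent.W894.HT.MDefs
import Pool.Agent.W469.HT.Space

/-!
# Project HM (helper894), piece LOC: the blocks for the odd prime `p`
-/

namespace Pool.Agent.W327.HMLoc

open Pool.Agent.W894.HT

theorem three1 : AS (A := ZMod 3) (phi (Fp 3)) (List.range' 2 5) ≠ 0 := by decide +kernel
theorem three2 : AS (A := ZMod 3) (phi (Fp 3)) (List.range' 2 4) ≠ 0 := by decide +kernel
theorem three3 : NN (A := ZMod 3) (phi (Fp 3)) 6 (List.range' 2 4) = 0 := by decide +kernel

section gen

variable {A : Type} [CommRing A]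

/-- `Rr` with constant last factor is a product of step weights -/
theorem Rr_one (φ : ℕ → ℕ → A) : ∀ (l : List ℕ) (x : ℕ) (κ : ℕ → ℕ),
    Rr φ (fun _ _ => (1 : A)) x l κ = ch φ (x :: l)
  | [], x, κ => rfl
  | v :: l, x, κ => by
    simp only [Rr, ch]
    rw [Rr_one φ l v, Rr_one φ l v]
    split_ifs <;> ring

theorem ch_zero_cons (φ : ℕ → ℕ → A) (hφ : ∀ u, φ 0 u = 0) : ∀ l : List ℕ, (∀ u ∈ l, 0 < u) →
    ch φ (0 :: l) = ch φ l
  | [], _ => rfl
  | v :: l, h => by
    have hv : 0 < v := h v (by simp)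
    simp only [ch, hφ, hv, if_true, add_zero, one_mul]

/-- the sum over the orders of a list is invariant -/
theorem AS_perm (φ : ℕ → ℕ → A) {W W' : List ℕ} (h : W.Perm W') : AS φ W = AS φ W' := by
  unfold AS
  exact ((h.permutations').map _).sum_eq

theorem AS_eq_PS (φ : ℕ → ℕ → A) (hφ : ∀ u, φ 0 u = 0) (W : List ℕ) (hW : ∀ u ∈ W, 0 < u) :
    AS φ W = PS φ (fun _ _ => (1 : A)) 0 W := by
  unfold AS PS
  congr 1
  refine List.map_congr_left fun l hl => ?_
  rw [List.mem_permutations'] at hl
  rw [Rr_one, ch_zero_cons φ hφ l fun u hu => hW u (hl.mem_iff.1 hu)]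

/-- a sum over the orders of `S` with only one nonzero term -/
theorem sum_perms_single {S : List ℕ} (hS : S.Nodup) (f : List ℕ → A)
    (h : ∀ l, l.Perm S → l ≠ S → f l = 0) : (S.permutations'.map f).sum = f S := by
  have hnd : S.permutations'.Nodup :=
    (List.permutations_perm_permutations' S).nodup_iff.1 (List.nodup_permutations S hS)
  rw [← List.sum_toFinset f hnd]
  apply Finset.sum_eq_single S
  · intro l hl hne
    rw [List.mem_toFinset, List.mem_permutations'] at hl
    exact h l hl hne
  · intro hS'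
    exfalso
    apply hS'
    rw [List.mem_toFinset, List.mem_permutations']

/-- the weight of a word without special pairs -/
theorem ch_sorted (φ : ℕ → ℕ → A) : ∀ l : List ℕ, (∀ a ∈ l, ∀ b ∈ l, φ a b = 0) →
    ch φ l = if l.IsChain (· < ·) then 1 else 0
  | [], _ => by simp [ch]
  | [a], _ => by simp [ch]
  | a :: b :: l, h => by
    have ih := ch_sorted φ (b :: l) (fun x hx y hy => h x (List.mem_cons_of_mem _ hx) y
      (List.mem_cons_of_mem _ hy))
    have hcc := List.isChain_cons_cons (R := fun x y : ℕ => x < y) (a := a) (b := b) (l := l)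
    simp only [ch]
    rw [ih, h a (by simp) b (by simp), add_zero]
    by_cases h1 : a < b <;> by_cases h2 : (b :: l).IsChain (· < ·) <;> simp [hcc, h1, h2]

theorem perm_sorted {l S : List ℕ} (h : l.Perm S) (hl : l.IsChain (· < ·))
    (hS : S.Pairwise (· < ·)) : l = S := by
  have h1 : l.Pairwise (· < ·) := List.isChain_iff_pairwise.1 hl
  exact List.Perm.eq_of_pairwise (fun a b _ _ hab hba => absurd hab (lt_asymm hba)) h1 hS h

theorem AS_sorted (φ : ℕ → ℕ → A) {S : List ℕ} (hS : S.Pairwise (· < ·))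
    (hφ : ∀ a ∈ S, ∀ b ∈ S, φ a b = 0) : AS φ S = 1 := by
  unfold AS
  have hnd : S.Nodup := hS.imp (fun h => ne_of_lt h)
  have hc : ∀ l, l.Perm S → ch φ l = if l.IsChain (· < ·) then 1 else 0 := fun l hl =>
    ch_sorted φ l fun a ha b hb => hφ a (hl.mem_iff.1 ha) b (hl.mem_iff.1 hb)
  rw [sum_perms_single hnd]
  · rw [hc S (List.Perm.refl S), if_pos (List.isChain_iff_pairwise.2 hS)]
  · intro l hl hne
    rw [hc l hl, if_neg]
    exact fun h => hne (perm_sorted hl h hS)

/-- the weight of a word followed by `v` -/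
theorem ch_append (φ : ℕ → ℕ → A) (v : ℕ) : ∀ l : List ℕ,
    ch φ (l ++ [v]) = ch φ l * (match l.getLast? with
      | none => 1
      | some u => (if u < v then 1 else 0) + φ u v)
  | [] => by simp [ch]
  | [a] => by simp [ch]
  | a :: b :: l => by
    have ih := ch_append φ v (b :: l)
    simp only [List.cons_append] at ih ⊢
    simp only [ch]
    rw [ih, List.getLast?_cons_cons]
    ring

end gen

/-! ### The case `p ≥ 5` -/

section big

variable {p : ℕ}

theorem Fp_eq (hp : p ≠ 3) (i j : ℕ) :
    Fp p i j = true ↔ (i = 2 ∧ j = p + 1) ∨ (j = 2 ∧ i = p + 1) := by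
  have hb : bsz p = p + 1 := by simp [bsz, hp]
  simp [Fp, hb, hp]

theorem phi_zero (hp : p ≠ 3) {A : Type} [CommRing A] {a b : ℕ}
    (h : ¬ ((a = 2 ∧ b = p + 1) ∨ (b = 2 ∧ a = p + 1))) : (phi (Fp p) a b : A) = 0 := by
  unfold phi
  rw [if_neg]
  rw [Fp_eq hp]
  exact h

theorem range_sorted (a n : ℕ) : (List.range' a n).Pairwise (· < ·) := List.pairwise_lt_range'

theorem big2 (hp : p ≠ 3) (_h5 : 5 ≤ p) {A : Type} [CommRing A] {S : List ℕ}
    (hS : S.Pairwise (· < ·)) (hm : ∀ a ∈ S, a < p + 1) :
    AS (A := A) (phi (Fp p)) S = 1 := by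
  apply AS_sorted _ hS
  intro a ha b hb
  apply phi_zero hp
  have h1 := hm a ha
  have h2 := hm b hb
  rintro (⟨_, h⟩ | ⟨_, h⟩) <;> omega

theorem big1 (hp : p ≠ 3) (h5 : 5 ≤ p) {A : Type} [CommRing A] :
    AS (A := A) (phi (Fp p)) (List.range' 2 p) = 1 + 2 ^ (p - 2) := by
  set φ : ℕ → ℕ → A := phi (Fp p) with hφ
  set Z := List.range' 3 (p - 2) with hZ
  have hmZ : ∀ z, z ∈ Z ↔ 3 ≤ z ∧ z < p + 1 := by
    intro z
    rw [hZ, List.mem_range'_1]
    omega
  have hmW : ∀ z, z ∈ List.range' 2 p ↔ 2 ≤ z ∧ z < p + 2 := by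
    intro z
    rw [List.mem_range'_1]
    omega
  have hnd : (Z ++ [p + 1, 2]).Nodup := by
    rw [List.nodup_append]
    refine ⟨List.nodup_range', by simp; omega, ?_⟩
    intro a ha b hb
    rw [hmZ] at ha
    simp only [List.mem_cons, List.not_mem_nil, or_false] at hb
    omega
  have hperm : (List.range' 2 p).Perm (Z ++ [p + 1, 2]) := by
    rw [List.perm_ext_iff_of_nodup List.nodup_range' hnd]
    intro a
    rw [hmW, List.mem_append, hmZ]
    simp only [List.mem_cons, List.not_mem_nil, or_false]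
    omega
  have h0 : ∀ u, φ 0 u = 0 := fun u => phi_zero hp (by omega)
  rw [AS_perm φ hperm, AS_eq_PS φ h0 _ (by
    intro u hu
    rw [List.mem_append, hmZ] at hu
    simp only [List.mem_cons, List.not_mem_nil, or_false] at hu
    omega)]
  rw [Pool.Agent.W469.HT.Space.main Pool.Agent.W469.HT.Ins.main A φ Z [p + 1, 2] 0 (by
    intro z hz u
    rw [hmZ] at hz
    exact ⟨phi_zero hp (by omega), phi_zero hp (by omega)⟩) hnd (by
    rw [List.mem_append, hmZ]
    simp)]
  have e1 : φ 2 (p + 1) = -1 := by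
    rw [hφ]
    unfold phi
    rw [if_pos ((Fp_eq hp _ _).2 (Or.inl ⟨rfl, rfl⟩)), if_pos (by omega)]
  have e2 : φ (p + 1) 2 = 1 := by
    rw [hφ]
    unfold phi
    rw [if_pos ((Fp_eq hp _ _).2 (Or.inr ⟨rfl, rfl⟩)), if_neg (by omega)]
  have hlen : Z.length = p - 2 := by rw [hZ, List.length_range']
  have hprod : ∀ (f : ℕ → A) (c : A), (∀ z ∈ Z, f z = c) → (Z.map f).prod = c ^ (p - 2) := by
    intro f c hf
    rw [List.map_congr_left hf, List.map_const', List.prod_replicate, hlen]
  unfold PS
  have hperms : [p + 1, 2].permutations' = [[p + 1, 2], [2, p + 1]] := rfl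
  rw [hperms]
  simp only [List.map_cons, List.map_nil, List.sum_cons, List.sum_nil, add_zero, Rr, h0, zero_mul,
    e1, e2]
  rw [if_pos (by omega : 0 < p + 1), if_neg (by omega : ¬ p + 1 < 2), if_pos (by omega : 0 < 2),
    if_pos (by omega : 2 < p + 1)]
  unfold finH
  rw [hprod _ 2, hprod _ 1, hprod _ 0]
  · rw [zero_pow (by omega)]
    ring
  · intro z hz
    rw [hmZ] at hz
    have h1 : ¬ (0 < z ∧ z < 2) := by omega
    have h2 : ¬ (p + 1 < z) := by omega
    simp [itv, low, h2]
    omega
  · intro z hz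
    rw [hmZ] at hz
    have h1 : ¬ (0 < z ∧ z < 2) := by omega
    have h2 : ¬ (p + 1 < z) := by omega
    have h3 : 2 < z ∧ z < p + 1 := by omega
    simp [itv, low, h2, h3]
    omega
  · intro z hz
    rw [hmZ] at hz
    have h1 : 0 < z ∧ z < p + 1 := by omega
    have h2 : 2 < z := by omega
    simp [itv, low, h1, h2]

theorem term_eq (hp : p ≠ 3) (h5 : 5 ≤ p) {A : Type} [CommRing A] {S : List ℕ}
    (hS : S.Sublist (List.range' 2 (p - 1))) :
    (S.permutations'.map fun l => ch (phi (Fp p)) (l ++ [p + 1])).sum =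
      (if S = [2] then (0 : A) else 1) := by
  have hmem : ∀ a ∈ S, 2 ≤ a ∧ a < p + 1 := by
    intro a ha
    have := hS.subset ha
    rw [List.mem_range'_1] at this
    omega
  have hsort : S.Pairwise (· < ·) := (range_sorted 2 (p - 1)).sublist hS
  have hnd : S.Nodup := hsort.imp (fun h => ne_of_lt h)
  have hc : ∀ l, l.Perm S → ch (A := A) (phi (Fp p)) l = if l.IsChain (· < ·) then 1 else 0 :=
    fun l hl => ch_sorted _ l fun a ha b hb => by
      apply phi_zero hp
      have h1 := hmem a (hl.mem_iff.1 ha)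
      have h2 := hmem b (hl.mem_iff.1 hb)
      rintro (⟨_, h⟩ | ⟨_, h⟩) <;> omega
  rw [sum_perms_single hnd]
  · rw [ch_append, hc S (List.Perm.refl S), if_pos (List.isChain_iff_pairwise.2 hsort), one_mul]
    rcases List.eq_nil_or_concat S with rfl | ⟨T, u, rfl⟩
    · simp
    · rw [List.concat_eq_append] at hmem hsort ⊢
      rw [List.getLast?_append]
      simp only [List.getLast?_singleton, Option.some_or]
      have hu := hmem u (by simp)
      rw [if_pos hu.2]
      by_cases hu2 : u = 2
      · have hT : T = [] := by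
          rcases T with _ | ⟨a, T⟩
          · rfl
          · exfalso
            have h1 := hmem a (by simp)
            rw [List.pairwise_append] at hsort
            have h2 := hsort.2.2 a (by simp) u (by simp)
            omega
        subst hT hu2
        rw [if_pos (by simp)]
        unfold phi
        rw [if_pos ((Fp_eq hp _ _).2 (Or.inl ⟨rfl, rfl⟩)), if_pos (by omega)]
        ring
      · rw [phi_zero hp (by omega), add_zero, if_neg]
        intro h
        have : u ∈ ([2] : List ℕ) := by rw [← h]; simp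
        simp at this
        exact hu2 this
  · intro l hl hne
    rw [ch_append, hc l hl, if_neg, zero_mul]
    exact fun h => hne (perm_sorted hl h hsort)

theorem big3 (hp : p ≠ 3) (h5 : 5 ≤ p) {A : Type} [CommRing A] :
    NN (A := A) (phi (Fp p)) (p + 1) (List.range' 2 (p - 1)) = 2 ^ (p - 1) - 1 := by
  unfold NN
  set Y := List.range' 2 (p - 1) with hY
  have hY1 : Y.Pairwise (· < ·) := range_sorted 2 (p - 1)
  have hYn : Y.Nodup := List.nodup_range'
  have h1 : ∀ S ∈ Y.sublists', (S.permutations'.map fun l => ch (phi (Fp p)) (l ++ [p + 1])).sum *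
      AS (phi (Fp p)) (Y.filter fun y => decide (y ∉ S)) = 1 - (if S = [2] then (1 : A) else 0) := by
    intro S hS
    rw [List.mem_sublists'] at hS
    rw [term_eq hp h5 hS, big2 hp h5 (hY1.filter _) (by
      intro a ha
      have := (List.mem_filter.1 ha).1
      rw [hY, List.mem_range'_1] at this
      omega), mul_one]
    split_ifs <;> ring
  rw [List.map_congr_left h1]
  have hnd : Y.sublists'.Nodup := List.nodup_sublists'.2 hYn
  rw [← List.sum_toFinset _ hnd, Finset.sum_sub_distrib, Finset.sum_const, nsmul_eq_mul, mul_one,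
    Finset.sum_ite_eq', if_pos, List.toFinset_card_of_nodup hnd, List.length_sublists']
  · rw [hY, List.length_range']
    push_cast
    rfl
  · rw [List.mem_toFinset, List.mem_sublists']
    rw [List.singleton_sublist, hY, List.mem_range'_1]
    omega

end big

theorem main : S_LOC := by
  intro p hF hp2
  have hpr : p.Prime := hF.out
  by_cases hp3 : p = 3
  · subst hp3
    exact ⟨three1, three2, three3⟩
  · have h5 : 5 ≤ p := by
      have h2 := hpr.two_le
      have h4 : p ≠ 4 := by rintro rfl; exact absurd hpr (by norm_num)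
      omega
    have hb : bsz p = p + 1 := by simp [bsz, hp3]
    rw [hb]
    have e1 : p + 1 - 1 = p := by omega
    have e2 : p + 1 - 2 = p - 1 := by omega
    rw [e1, e2]
    have hferm : (2 : ZMod p) ^ (p - 1) = 1 := by
      apply ZMod.pow_card_sub_one_eq_one
      intro h
      have h1 : ((2 : ℕ) : ZMod p) = 0 := by exact_mod_cast h
      rw [ZMod.natCast_eq_zero_iff] at h1
      have := Nat.le_of_dvd (by norm_num) h1
      omega
    refine ⟨?_, ?_, ?_⟩
    · rw [big1 hp3 h5]
      intro h
      have h1 : (2 : ZMod p) * (1 + 2 ^ (p - 2)) = 3 := by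
        have : (2 : ZMod p) * 2 ^ (p - 2) = 2 ^ (p - 1) := by
          rw [← pow_succ']
          congr 1
          omega
        rw [mul_add, this, hferm]
        norm_num
      rw [h, mul_zero] at h1
      have h2 : ((3 : ℕ) : ZMod p) = 0 := by exact_mod_cast h1.symm
      rw [ZMod.natCast_eq_zero_iff] at h2
      have := Nat.le_of_dvd (by norm_num) h2
      omega
    · rw [big2 hp3 h5 (range_sorted 2 (p - 1)) (by
        intro a ha
        rw [List.mem_range'_1] at ha
        omega)]
      have : Nontrivial (ZMod p) := ZMod.nontrivial_iff.2 (by omega)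
      exact one_ne_zero
    · rw [big3 hp3 h5, hferm, sub_self]

end Pool.Agent.W327.HMLoc
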